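import Pool.Agent.Helper47.Wan.NonTriv

/-!
The reduction of the reciprocity law `reciprocity_of_witt` to its main case: `u` transcendental
and not a `p`-th power. The main case is taken as the hypothesis `hmain`.
-/

open scoped WithZero
open WithZero IsLocalRing
open Pool.Agent.Helper47.Wan

namespace Pool.Agent.Helper13.Wan

section
variable {F : Type*} [Field F]

theorem exists_bound_val (v : Place F) (n : ℕ) (b : ℕ → F) :
    ∃ B : ℕ, ∀ i < n, v.val (b i) ≤ exp (B : ℤ) := by
  classical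
  refine ⟨∑ i ∈ Finset.range n, (- v.ord (b i)).toNat, fun i hi => ?_⟩
  by_cases h0 : b i = 0
  · rw [h0, map_zero]; exact zero_le
  · rw [v.val_eq h0, exp_le_exp]
    have h1 : (- v.ord (b i)).toNat ≤ ∑ i ∈ Finset.range n, (- v.ord (b i)).toNat :=
      Finset.single_le_sum (f := fun i => (- v.ord (b i)).toNat) (fun _ _ => Nat.zero_le _)
        (Finset.mem_range.2 hi)
    have h2 : - v.ord (b i) ≤ ((- v.ord (b i)).toNat : ℤ) := Int.self_le_toNat _
    exact h2.trans (by exact_mod_cast h1)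

/-- The size estimate behind the choice of the modulus. -/
theorem val_mul_le (v : Place F) (p n B : ℕ) (hp : 0 < p) {x b : F} {m : ℤ}
    (hx : v.val x ≤ exp (-m)) (hb : v.val b ≤ exp (B : ℤ)) (hm : (p ^ n * B : ℤ) ≤ m) (i : ℕ) :
    v.val (x ^ (p ^ i) * b ^ (p ^ n)) ≤ 1 := by
  rw [map_mul, map_pow, map_pow]
  have h1 : v.val x ^ (p ^ i) ≤ exp (-m * (p ^ i : ℕ)) := by
    refine (pow_le_pow_left₀ zero_le hx _).trans (le_of_eq ?_)
    rw [← exp_nsmul, nsmul_eq_mul, mul_comm]
  have h2 : v.val b ^ (p ^ n) ≤ exp ((B : ℤ) * (p ^ n : ℕ)) := by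
    refine (pow_le_pow_left₀ zero_le hb _).trans (le_of_eq ?_)
    rw [← exp_nsmul, nsmul_eq_mul, mul_comm]
  refine (mul_le_mul' h1 h2).trans ?_
  rw [← exp_add, ← exp_zero, exp_le_exp]
  have hm0 : 0 ≤ m := le_trans (by positivity) hm
  have hpi : (1 : ℤ) ≤ ((p ^ i : ℕ) : ℤ) := by
    exact_mod_cast Nat.one_le_pow _ _ hp
  have h3 : m ≤ m * ((p ^ i : ℕ) : ℤ) := by nlinarith
  push_cast at *
  nlinarith

end

/-- The reduction to the main case. -/
theorem reciprocity_of_main (p : ℕ) [hp : Fact p.Prime] (n : ℕ) {F : Type*} [Field F]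
    [Algebra (ZMod p) F] (hF : IsFunctionField (ZMod p) F) (S : Set (Place F)) (hSf : S.Finite)
    (f : Place F → ℕ) (a : WittVector p F)
    (hmain : ∀ u : F, Transcendental (ZMod p) u → (∀ w : F, w ^ p ≠ u) →
      (∀ v ∈ S, v.val (u - 1) < 1) →
      (∀ v ∈ S, ∀ i < n, v.val ((u - 1) ^ (p ^ i) * (a.coeff i) ^ (p ^ n)) ≤ 1) →
      (p ^ n : ℤ) ∣ wt (fun v => (f v : ℤ)) (divF p hF u)) :
    ∃ m : Place F →₀ ℤ, (∀ v ∈ S, 1 ≤ m v) ∧ (∀ v ∉ S, m v = 0) ∧
      ∀ u : F, u ≠ 0 → (∀ v ∈ S, v.val (u - 1) ≤ exp (-m v)) →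
        (p ^ n : ℤ) ∣ wt (fun v => (f v : ℤ)) (divF p hF u) := by
  classical
  choose B hB using fun v : Place F => exists_bound_val v n a.coeff
  let m : Place F →₀ ℤ := Finsupp.onFinset hSf.toFinset
    (fun v => if v ∈ S then (p ^ n * B v + 1 : ℤ) else 0) (fun v hv => by
      rw [Set.Finite.mem_toFinset]
      by_contra h
      exact hv (if_neg h))
  have hm1 : ∀ v ∈ S, m v = p ^ n * B v + 1 := fun v hv => if_pos hv
  have hm0 : ∀ v ∉ S, m v = 0 := fun v hv => if_neg hv
  have hmpos : ∀ v ∈ S, 1 ≤ m v := by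
    intro v hv
    rw [hm1 v hv]
    have : (0 : ℤ) ≤ p ^ n * B v := by positivity
    linarith
  refine ⟨m, hmpos, hm0, ?_⟩
  obtain ⟨v₁, hv₁⟩ := exists_place_notMem p hF S hSf
  -- the main case, in terms of the order at `v₁`
  have key : ∀ y : F, (∀ v ∈ S, v.val (y - 1) ≤ exp (-m v)) → ¬ (p : ℤ) ∣ v₁.ord y →
      (p ^ n : ℤ) ∣ wt (fun v => (f v : ℤ)) (divF p hF y) := by
    intro y hy hord
    apply hmain y
    · intro halg
      apply hord
      rw [ord_eq_zero_of_isAlgebraic p v₁ halg]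
      exact dvd_zero _
    · rintro w rfl
      apply hord
      rw [v₁.ord_pow]
      exact dvd_mul_right _ _
    · intro v hv
      refine (hy v hv).trans_lt ?_
      rw [← exp_zero, exp_lt_exp]
      have := hmpos v hv
      linarith
    · intro v hv i hi
      exact val_mul_le v p n (B v) hp.out.pos (hy v hv) (hB v i hi)
        (by rw [hm1 v hv]; linarith) i
  -- the auxiliary function
  obtain ⟨π, hπ0, hπ⟩ := v₁.exists_uniformizer
  obtain ⟨z, hz⟩ := Place.weak_approx (insert v₁ hSf.toFinset)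
    (fun v => if v = v₁ then π else 1) (2 + ∑ v ∈ hSf.toFinset, m v)
  have hsum : ∀ v ∈ S, m v ≤ ∑ v ∈ hSf.toFinset, m v := by
    intro v hv
    exact Finset.single_le_sum (f := fun v => m v)
      (fun w hw => by
        have := hmpos w ((Set.Finite.mem_toFinset hSf).1 hw)
        show (0 : ℤ) ≤ m w
        linarith)
      ((Set.Finite.mem_toFinset hSf).2 hv)
  have hsum0 : 0 ≤ ∑ v ∈ hSf.toFinset, m v :=
    Finset.sum_nonneg fun w hw => by
      have := hmpos w ((Set.Finite.mem_toFinset hSf).1 hw)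
      linarith
  have hzS : ∀ v ∈ S, v.val (z - 1) ≤ exp (-m v) := by
    intro v hv
    have h1 := hz v (Finset.mem_insert_of_mem ((Set.Finite.mem_toFinset hSf).2 hv))
    have hne : v ≠ v₁ := by rintro rfl; exact hv₁ hv
    simp only [if_neg hne] at h1
    refine h1.trans ?_
    rw [exp_le_exp]
    have := hsum v hv
    linarith
  have hz1 : v₁.ord z = 1 := by
    have h1 := hz v₁ (Finset.mem_insert_self _ _)
    simp only [if_true] at h1
    have h3 : v₁.val (z - π) < v₁.val π := by
      rw [v₁.val_eq hπ0, hπ]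
      refine h1.trans_lt ?_
      rw [exp_lt_exp]
      linarith
    have h4 : v₁.val z = v₁.val π := by
      have h5 : z = π + (z - π) := by ring
      rw [h5, Valuation.map_add_eq_of_lt_left _ h3]
    rw [← hπ, Place.ord, Place.ord, h4]
  have hp1 : ¬ (p : ℤ) ∣ 1 := by
    intro h
    have h2 : p ∣ 1 := by exact_mod_cast h
    exact hp.out.one_lt.ne' (Nat.dvd_one.1 h2)
  have hz0 : z ≠ 0 := by
    rintro rfl
    rw [Place.ord, map_zero, WithZero.log_zero, neg_zero] at hz1
    exact zero_ne_one hz1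
  have hkz := key z hzS (by rw [hz1]; exact hp1)
  intro u hu0 hu
  by_cases hord : (p : ℤ) ∣ v₁.ord u
  · have huz : (p ^ n : ℤ) ∣ wt (fun v => (f v : ℤ)) (divF p hF (u * z)) := by
      apply key
      · intro v hv
        have h1 : v.val (u - 1) < 1 := by
          refine (hu v hv).trans_lt ?_
          rw [← exp_zero, exp_lt_exp]
          have := hmpos v hv
          linarith
        have h2 : v.val u ≤ 1 := by
          have h5 : u = (u - 1) + 1 := by ring
          rw [h5]
          exact (v.val.map_add _ _).trans (max_le h1.le (by rw [map_one]))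
        have h3 : u * z - 1 = u * (z - 1) + (u - 1) := by ring
        rw [h3]
        refine (v.val.map_add _ _).trans (max_le ?_ (hu v hv))
        rw [map_mul]
        calc v.val u * v.val (z - 1) ≤ 1 * exp (-m v) := mul_le_mul' h2 (hzS v hv)
          _ = exp (-m v) := one_mul _
      · rw [v₁.ord_mul hu0 hz0, hz1]
        intro h
        exact hp1 ((dvd_add_right hord).1 h)
    rw [divF_mul p hF hu0 hz0, wt_add] at huz
    exact (dvd_add_left hkz).1 huz
  · exact key u hu hord

end Pool.Agent.Helper13.Wan
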