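import Mathlib

set_option autoImplicit false

open IntermediateField

namespace Pool.Agent.Helper13.Wan

/-- The `n`-th layer of a `ℤ_p`-extension `Ω / K`: the fixed field of `p ^ n ℤ_p`. -/
noncomputable def layer {p : ℕ} [Fact p.Prime] {K Ω : Type*} [Field K] [Field Ω] [Algebra K Ω]
    (e : Gal(Ω/K) ≃ₜ* Multiplicative ℤ_[p]) (n : ℕ) : IntermediateField K Ω :=
  IntermediateField.fixedField
    (Subgroup.comap (e : Gal(Ω/K) →* Multiplicative ℤ_[p])
      (AddSubgroup.toSubgroup (Ideal.span {(p : ℤ_[p]) ^ n}).toAddSubgroup))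

section
variable {p : ℕ} [Fact p.Prime] {K Ω : Type*} [Field K] [Field Ω] [Algebra K Ω]
    (e : Gal(Ω/K) ≃ₜ* Multiplicative ℤ_[p])

/-- the subgroup of `Gal(Ω/K)` corresponding to `p ^ n ℤ_p` -/
noncomputable def layerSubgroup (n : ℕ) : Subgroup Gal(Ω/K) :=
  Subgroup.comap (e : Gal(Ω/K) →* Multiplicative ℤ_[p])
      (AddSubgroup.toSubgroup (Ideal.span {(p : ℤ_[p]) ^ n}).toAddSubgroup)

theorem mem_layerSubgroup (n : ℕ) (σ : Gal(Ω/K)) :
    σ ∈ layerSubgroup e n ↔ Multiplicative.toAdd (e σ) ∈ Ideal.span {(p : ℤ_[p]) ^ n} := by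
  rfl

theorem isOpen_span (n : ℕ) : IsOpen ((Ideal.span {(p : ℤ_[p]) ^ n} : Ideal ℤ_[p]) : Set ℤ_[p]) := by
  have h : ((Ideal.span {(p : ℤ_[p]) ^ n} : Ideal ℤ_[p]) : Set ℤ_[p]) =
      Metric.closedBall 0 ((p : ℝ) ^ (-n : ℤ)) := by
    ext x
    rw [SetLike.mem_coe, ← PadicInt.norm_le_pow_iff_mem_span_pow, mem_closedBall_zero_iff]
  rw [h]
  apply IsUltrametricDist.isOpen_closedBall
  exact (zpow_pos (by exact_mod_cast (Fact.out : p.Prime).pos) _).ne'

theorem isOpen_layerSubgroup (n : ℕ) : IsOpen (layerSubgroup e n : Set Gal(Ω/K)) := by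
  have h1 := isOpen_span (p := p) n
  have h2 : Continuous fun σ : Gal(Ω/K) => Multiplicative.toAdd (e σ) :=
    continuous_toAdd.comp e.continuous
  exact h1.preimage h2

instance layerSubgroup_normal (n : ℕ) : (layerSubgroup e n).Normal := by
  unfold layerSubgroup
  infer_instance

/-- the corresponding closed subgroup -/
noncomputable def layerClosed (n : ℕ) : ClosedSubgroup Gal(Ω/K) :=
  { layerSubgroup e n with
    isClosed' := Subgroup.isClosed_of_isOpen _ (isOpen_layerSubgroup e n) }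

theorem layer_eq (n : ℕ) : layer e n = fixedField (layerSubgroup e n) := rfl

variable [IsGalois K Ω]

theorem fixingSubgroup_layer (n : ℕ) : (layer e n).fixingSubgroup = layerSubgroup e n :=
  InfiniteGalois.fixingSubgroup_fixedField (layerClosed e n)

/-- Module I. -/
theorem layer_finiteDimensional (n : ℕ) : FiniteDimensional K (layer e n) := by
  rw [← InfiniteGalois.isOpen_iff_finite]
  change IsOpen ((layer e n).fixingSubgroup : Set Gal(Ω/K))
  rw [fixingSubgroup_layer]
  exact isOpen_layerSubgroup e n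

theorem layer_isGalois (n : ℕ) : IsGalois K (layer e n) := by
  rw [← InfiniteGalois.normal_iff_isGalois, fixingSubgroup_layer]
  infer_instance

omit [IsGalois K Ω] in
theorem layer_mono {m n : ℕ} (h : m ≤ n) : layer e m ≤ layer e n := by
  rw [layer_eq, layer_eq]
  apply IntermediateField.fixedField_le
  intro σ hσ
  rw [mem_layerSubgroup] at hσ ⊢
  exact (Ideal.span_singleton_le_span_singleton.2 (pow_dvd_pow _ h)) hσ

theorem layer_zero : layer e 0 = ⊥ := by
  rw [← InfiniteGalois.fixedField_bot, layer_eq]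
  congr 1
  ext σ
  rw [mem_layerSubgroup]
  simp

/-- the surjection onto `ℤ/p^n` -/
noncomputable def toZMod (n : ℕ) : Gal(Ω/K) →* Multiplicative (ZMod (p ^ n)) :=
  (AddMonoidHom.toMultiplicative (PadicInt.toZModPow (p := p) n).toAddMonoidHom).comp
    (e : Gal(Ω/K) →* Multiplicative ℤ_[p])

omit [IsGalois K Ω] in
theorem toZMod_apply (n : ℕ) (σ : Gal(Ω/K)) : toZMod e n σ =
    Multiplicative.ofAdd (PadicInt.toZModPow n (Multiplicative.toAdd (e σ))) := rfl

omit [IsGalois K Ω] in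
theorem ker_toZMod (n : ℕ) : (toZMod e n).ker = layerSubgroup e n := by
  ext σ
  rw [MonoidHom.mem_ker, toZMod_apply, mem_layerSubgroup, ← PadicInt.ker_toZModPow,
    RingHom.mem_ker]
  rfl

omit [IsGalois K Ω] in
theorem toZMod_surjective (n : ℕ) : Function.Surjective (toZMod e n) := by
  intro y
  obtain ⟨z, hz⟩ := ZMod.ringHom_surjective (PadicInt.toZModPow (p := p) n)
    (Multiplicative.toAdd y)
  obtain ⟨σ, hσ⟩ := e.surjective (Multiplicative.ofAdd z)
  refine ⟨σ, ?_⟩
  rw [toZMod_apply, hσ, toAdd_ofAdd, hz, ofAdd_toAdd]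

/-- `Gal(K_n/K) ≃ ℤ/p^n`, compatibly with `e`. -/
theorem exists_layer_equiv (n : ℕ) :
    haveI := layer_isGalois e n
    ∃ en : Gal(layer e n/K) ≃* Multiplicative (ZMod (p ^ n)),
      ∀ σ : Gal(Ω/K), en (AlgEquiv.restrictNormal σ (layer e n)) =
        Multiplicative.ofAdd (PadicInt.toZModPow n (Multiplicative.toAdd (e σ))) := by
  have := layer_isGalois e n
  let r : Gal(Ω/K) →* Gal(layer e n/K) := AlgEquiv.restrictNormalHom (layer e n)
  have hr : Function.Surjective r := AlgEquiv.restrictNormalHom_surjective Ω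
  have hker : r.ker = (toZMod e n).ker := by
    rw [ker_toZMod, ← fixingSubgroup_layer, ← IntermediateField.restrictNormalHom_ker]
  let e1 : Gal(Ω/K) ⧸ r.ker ≃* Gal(layer e n/K) := QuotientGroup.quotientKerEquivOfSurjective r hr
  let e2 : Gal(Ω/K) ⧸ (toZMod e n).ker ≃* Multiplicative (ZMod (p ^ n)) :=
    QuotientGroup.quotientKerEquivOfSurjective (toZMod e n) (toZMod_surjective e n)
  let e3 : Gal(Ω/K) ⧸ r.ker ≃* Gal(Ω/K) ⧸ (toZMod e n).ker :=
    QuotientGroup.quotientMulEquivOfEq hker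
  refine ⟨e1.symm.trans (e3.trans e2), ?_⟩
  intro σ
  have h1 : e1 (QuotientGroup.mk σ) = AlgEquiv.restrictNormal σ (layer e n) := rfl
  rw [← h1]
  simp only [MulEquiv.trans_apply, MulEquiv.symm_apply_apply]
  rfl

end

end Pool.Agent.Helper13.Wan
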