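import Mathlib

set_option autoImplicit false

open IntermediateField Polynomial Module

namespace Pool.Agent.Helper13.Wan

section Frob

variable (p : ℕ) [Fact p.Prime] (F : Type*) [Field F] [CharP F p]

/-- `F ^ p` -/
noncomputable abbrev frobRange : Subfield F := (frobenius F p).fieldRange

variable {F}

theorem mem_frobRange (x : F) : x ∈ frobRange p F ↔ ∃ y, y ^ p = x := by
  rw [RingHom.mem_fieldRange]
  rfl

variable [Algebra (ZMod p) F]

/-- the key degree computation: `[F : F^p] ≤ p`. -/
theorem finrank_frobRange (t : F)
    [FiniteDimensional (IntermediateField.adjoin (ZMod p) {t}) F] :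
    0 < finrank (frobRange p F) F ∧ finrank (frobRange p F) F ≤ p := by
  set K : Subfield F := (IntermediateField.adjoin (ZMod p) {t}).toSubfield with hK
  set φ := frobenius F p with hφ
  set K0 : Subfield F := K.map φ with hK0
  have hd : 0 < finrank K F := by
    change 0 < finrank (IntermediateField.adjoin (ZMod p) {t}) F
    exact finrank_pos
  have hle : K0 ≤ K := by
    rintro _ ⟨x, hx, rfl⟩
    exact K.pow_mem hx p
  have h1 : Subfield.relfinrank K0 K * finrank K F = finrank K0 F :=
    Subfield.relfinrank_mul_finrank_top hle
  have hle2 : K0 ≤ φ.fieldRange := by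
    rintro _ ⟨x, hx, rfl⟩
    exact ⟨x, rfl⟩
  have h2 : Subfield.relfinrank K0 φ.fieldRange * finrank φ.fieldRange F = finrank K0 F :=
    Subfield.relfinrank_mul_finrank_top hle2
  have h3 : Subfield.relfinrank K0 φ.fieldRange = finrank K F := by
    have : φ.fieldRange = Subfield.map φ ⊤ := by
      rw [RingHom.fieldRange_eq_map]
    rw [this, hK0, Subfield.relfinrank_map_map, Subfield.relfinrank_top_right]
  have h4 : finrank φ.fieldRange F = Subfield.relfinrank K0 K := by
    rw [h3, mul_comm, ← h1] at h2
    exact Nat.eq_of_mul_eq_mul_right hd h2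
  -- `K = K0(t)`
  have htK : t ∈ K := IntermediateField.mem_adjoin_simple_self (ZMod p) t
  have htp : t ^ p ∈ K0 := ⟨t, htK, rfl⟩
  have h5 : Subfield.extendScalars hle = IntermediateField.adjoin K0 {t} := by
    apply le_antisymm
    · intro x hx
      have hx' : x ∈ IntermediateField.adjoin (ZMod p) {t} := hx
      have hmem : ∀ x : ZMod p, algebraMap (ZMod p) F x ∈
          (IntermediateField.adjoin K0 {t}).toSubfield := by
        intro x
        rw [← ZMod.natCast_zmod_val x, map_natCast]
        exact _root_.natCast_mem _ _
      have : IntermediateField.adjoin (ZMod p) {t} ≤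
          Subfield.toIntermediateField (IntermediateField.adjoin K0 {t}).toSubfield hmem := by
        rw [IntermediateField.adjoin_simple_le_iff]
        exact IntermediateField.mem_adjoin_simple_self K0 t
      exact this hx'
    · rw [IntermediateField.adjoin_simple_le_iff]
      exact htK
  have hint : IsIntegral K0 t := by
    refine ⟨X ^ p - C ⟨t ^ p, htp⟩, monic_X_pow_sub_C _ (Fact.out : p.Prime).ne_zero, ?_⟩
    rw [eval₂_sub, eval₂_X_pow, eval₂_C]
    exact sub_self _
  have h6 : Subfield.relfinrank K0 K = (minpoly K0 t).natDegree := by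
    rw [Subfield.relfinrank_eq_finrank_of_le hle, h5]
    exact IntermediateField.adjoin.finrank hint
  have h7 : (minpoly K0 t).natDegree ≤ p := by
    have : minpoly K0 t ∣ X ^ p - C ⟨t ^ p, htp⟩ := by
      apply minpoly.dvd
      rw [map_sub, map_pow, aeval_X, aeval_C]
      exact sub_self _
    have := natDegree_le_of_dvd this (X_pow_sub_C_ne_zero (Fact.out : p.Prime).pos _)
    rwa [natDegree_X_pow_sub_C] at this
  change 0 < finrank φ.fieldRange F ∧ finrank φ.fieldRange F ≤ p
  rw [h4, h6]
  exact ⟨minpoly.natDegree_pos hint, h7⟩

/-- a subfield containing `F^p` and an element which is not a `p`-th power is everything. -/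
theorem eq_top_of_frobRange_le (t : F)
    [FiniteDimensional (IntermediateField.adjoin (ZMod p) {t}) F]
    (u : F) (hup : ∀ w : F, w ^ p ≠ u) (T : Subfield F) (hT : frobRange p F ≤ T) (hu : u ∈ T) :
    T = ⊤ := by
  obtain ⟨hpos, hle⟩ := finrank_frobRange p t
  have : FiniteDimensional (frobRange p F) F := FiniteDimensional.of_finrank_pos hpos
  have hup' : u ^ p ∈ frobRange p F := ⟨u, rfl⟩
  have hirr : Irreducible (X ^ p - C (⟨u ^ p, hup'⟩ : frobRange p F)) := by
    apply X_pow_sub_C_irreducible_of_prime (Fact.out : p.Prime)
    rintro ⟨b, hb⟩ h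
    obtain ⟨w, hw⟩ := (mem_frobRange p b).1 hb
    have h' : b ^ p = u ^ p := congrArg Subtype.val h
    have : b = u := frobenius_inj F p h'
    exact hup w (hw.trans this)
  have hmin : minpoly (frobRange p F) u = X ^ p - C (⟨u ^ p, hup'⟩ : frobRange p F) := by
    symm
    apply minpoly.eq_of_irreducible_of_monic hirr
    · rw [map_sub, map_pow, aeval_X, aeval_C]
      exact sub_self _
    · exact monic_X_pow_sub_C _ (Fact.out : p.Prime).ne_zero
  have hfin : finrank (frobRange p F) (IntermediateField.adjoin (frobRange p F) {u}) = p := by
    rw [IntermediateField.adjoin.finrank (IsIntegral.of_finite _ u), hmin, natDegree_X_pow_sub_C]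
  have htop : IntermediateField.adjoin (frobRange p F) {u} = ⊤ := by
    apply IntermediateField.eq_of_le_of_finrank_le le_top
    rw [hfin, IntermediateField.finrank_top']
    exact hle
  rw [eq_top_iff]
  intro x _
  have hx : x ∈ IntermediateField.adjoin (frobRange p F) {u} := by rw [htop]; trivial
  have : IntermediateField.adjoin (frobRange p F) {u} ≤ Subfield.extendScalars hT := by
    rw [IntermediateField.adjoin_simple_le_iff]
    exact hu
  exact this hx

/-- a subfield containing `F^{p^j}` and an element which is not a `p`-th power is everything. -/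
theorem eq_top_of_pow_mem (t : F)
    [FiniteDimensional (IntermediateField.adjoin (ZMod p) {t}) F]
    (u : F) (hup : ∀ w : F, w ^ p ≠ u) (T : Subfield F) (hu : u ∈ T) (j : ℕ)
    (hj : ∀ x : F, x ^ (p ^ j) ∈ T) : T = ⊤ := by
  induction j with
  | zero =>
    rw [eq_top_iff]
    intro x _
    simpa using hj x
  | succ j ih =>
    apply ih
    intro x
    let T' : Subfield F := T.comap (iterateFrobenius F p j)
    have hT' : T' = ⊤ := by
      apply eq_top_of_frobRange_le p t u hup T'
      · rintro _ ⟨y, rfl⟩
        change (iterateFrobenius F p j) (y ^ p) ∈ T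
        rw [iterateFrobenius_def, ← pow_mul, mul_comm, ← pow_succ]
        exact hj y
      · change (iterateFrobenius F p j) u ∈ T
        rw [iterateFrobenius_def]
        exact T.pow_mem hu _
    have : x ∈ T' := by rw [hT']; trivial
    exact this

end Frob

section
open scoped IntermediateField.algebraAdjoinAdjoin

theorem isAlgebraic_algebra_adjoin {k F : Type*} [Field k] [Field F] [Algebra k F]
    (S : Set F) [Algebra.IsAlgebraic (IntermediateField.adjoin k S) F] :
    Algebra.IsAlgebraic (Algebra.adjoin k S) F :=
  (IsFractionRing.comap_isAlgebraic_iff (A := Algebra.adjoin k S)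
    (K := IntermediateField.adjoin k S) (C := F)).2 inferInstance

end

theorem isAlgebraic_adjoin_of_transcendental {k F : Type*} [Field k] [Field F] [Algebra k F]
    (t : F) [Algebra.IsAlgebraic (IntermediateField.adjoin k {t}) F]
    (u : F) (hu : Transcendental k u) :
    Algebra.IsAlgebraic (IntermediateField.adjoin k {u}) F := by
  have halg : Algebra.IsAlgebraic (Algebra.adjoin k ({t} : Set F)) F :=
    isAlgebraic_algebra_adjoin _
  have h1 : Algebra.trdeg k F ≤ 1 := by
    have := Algebra.IsAlgebraic.trdeg_le_cardinalMk (R := k) (A := F) (s := {t})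
    simpa using this
  have hind : AlgebraicIndependent k (fun _ : Unit => u) :=
    algebraicIndependent_unique_type_iff.2 hu
  have hbasis : IsTranscendenceBasis k (fun _ : Unit => u) := by
    apply hind.isTranscendenceBasis_of_lift_trdeg_le_of_finite
    simpa using h1
  have := hbasis.isAlgebraic_field
  have hr : Set.range (fun _ : Unit => u) = {u} := by ext x; simp [eq_comm]
  rwa [hr] at this

theorem exists_adjoin_insert_eq_top {k F : Type*} [Field k] [Field F] [Algebra k F]
    (t : F) [FiniteDimensional (IntermediateField.adjoin k {t}) F]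
    (M : IntermediateField k F) :
    ∃ s : Finset F, IntermediateField.adjoin M (insert t (s : Set F)) = ⊤ := by
  obtain ⟨s, hs⟩ := (Module.finite_def.1 ‹FiniteDimensional (IntermediateField.adjoin k {t}) F›)
  refine ⟨s, ?_⟩
  set L := IntermediateField.adjoin M (insert t (s : Set F)) with hL
  have htL : insert t (s : Set F) ⊆ L := IntermediateField.subset_adjoin M _
  have htL1 : t ∈ L := htL (Set.mem_insert t _)
  have ht' : ∀ a ∈ IntermediateField.adjoin k {t}, a ∈ L := by
    have h0 : IntermediateField.adjoin k {t} ≤ L.restrictScalars k :=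
      (IntermediateField.adjoin_simple_le_iff (K := L.restrictScalars k)).2 htL1
    intro a ha
    exact h0 ha
  let N : Submodule (IntermediateField.adjoin k {t}) F :=
    { carrier := L
      add_mem' := fun {a b} ha hb => L.add_mem ha hb
      zero_mem' := L.zero_mem
      smul_mem' := fun c x hx => by
        rw [Algebra.smul_def]
        exact L.mul_mem (ht' _ c.2) hx }
  have hN : (⊤ : Submodule (IntermediateField.adjoin k {t}) F) ≤ N := by
    rw [← hs, Submodule.span_le]
    intro x hx
    exact htL (Set.mem_insert_of_mem _ hx)
  rw [eq_top_iff]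
  intro x _
  have hx : x ∈ N := hN Submodule.mem_top
  exact hx

theorem finiteDimensional_adjoin' {k F : Type*} [Field k] [Field F] [Algebra k F]
    (t : F) [FiniteDimensional (IntermediateField.adjoin k {t}) F]
    (u : F) (hu : Transcendental k u) :
    FiniteDimensional (IntermediateField.adjoin k {u}) F := by
  have halg2 : Algebra.IsAlgebraic (IntermediateField.adjoin k {u}) F :=
    isAlgebraic_adjoin_of_transcendental t u hu
  obtain ⟨s, h3⟩ := exists_adjoin_insert_eq_top t (IntermediateField.adjoin k {u})
  have h2 : FiniteDimensional (IntermediateField.adjoin k {u})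
      (IntermediateField.adjoin (IntermediateField.adjoin k {u}) (insert t (s : Set F))) := by
    have : Finite (insert t (s : Set F) : Set F) := (s.finite_toSet.insert t).to_subtype
    exact IntermediateField.finiteDimensional_adjoin fun x _ =>
      (Algebra.IsAlgebraic.isAlgebraic x).isIntegral
  rw [h3] at h2
  exact IntermediateField.topEquiv.toLinearEquiv.finiteDimensional

/-- Module S. -/
theorem isSeparable_adjoin (p : ℕ) [Fact p.Prime] (F : Type*) [Field F] [Algebra (ZMod p) F]
    (t : F) (ht : Transcendental (ZMod p) t) [FiniteDimensional (IntermediateField.adjoin (ZMod p) {t}) F]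
    (u : F) (hu : Transcendental (ZMod p) u) (hup : ∀ w : F, w ^ p ≠ u) :
    FiniteDimensional (IntermediateField.adjoin (ZMod p) {u}) F ∧
      Algebra.IsSeparable (IntermediateField.adjoin (ZMod p) {u}) F := by
  have : CharP F p := charP_of_injective_algebraMap (algebraMap (ZMod p) F).injective p
  have hfd : FiniteDimensional (IntermediateField.adjoin (ZMod p) {u}) F :=
    finiteDimensional_adjoin' t u hu
  refine ⟨hfd, ?_⟩
  set Ku := IntermediateField.adjoin (ZMod p) {u} with hKu
  have : CharP Ku p := charP_of_injective_algebraMap (algebraMap (ZMod p) Ku).injective p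
  set E := separableClosure Ku F with hE
  have : CharP E p := charP_of_injective_algebraMap (algebraMap Ku E).injective p
  have : FiniteDimensional E F := inferInstance
  have : IsPurelyInseparable E F := inferInstance
  have hexp : IsPurelyInseparable.HasExponent E F := inferInstance
  obtain ⟨j, hj⟩ := (IsPurelyInseparable.hasExponent_iff' E F p).1 hexp
  have htop : E.toSubfield = ⊤ := by
    apply eq_top_of_pow_mem p t u hup _ _ j
    · intro x
      obtain ⟨y, hy⟩ := hj x
      rw [← hy]
      exact y.2
    · have : u ∈ Ku := IntermediateField.mem_adjoin_simple_self _ u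
      exact E.algebraMap_mem (⟨u, this⟩ : Ku)
  have hEtop : E = ⊤ := by
    rw [eq_top_iff]
    intro x _
    have : x ∈ E.toSubfield := by rw [htop]; trivial
    exact this
  exact (separableClosure.eq_top_iff _ _).1 hEtop

end Pool.Agent.Helper13.Wan
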