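import Mathlib

set_option autoImplicit false

open WittVector

namespace Pool.Agent.Helper13.Wan

section W5

variable (p : ℕ) [Fact p.Prime]

theorem truncate_eq_iff {M : Type*} [CommRing M] (n : ℕ) (x y : WittVector p M) :
    truncate n x = truncate n y ↔ ∀ i < n, x.coeff i = y.coeff i := by
  constructor
  · intro h i hi
    have := congrArg (fun z => TruncatedWittVector.coeff (⟨i, hi⟩ : Fin n) z) h
    simpa using this
  · intro h
    apply TruncatedWittVector.ext
    intro i
    simpa using h i i.2

/-- Module W5 : coefficients below `n` only depend on the truncation, for maps and sums. -/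
theorem coeff_sum_congr {M : Type*} [CommRing M] (n : ℕ) {ι : Type*}
    (s : Finset ι) (x y : ι → WittVector p M) (h : ∀ j ∈ s, ∀ i < n, (x j).coeff i = (y j).coeff i) :
    ∀ i < n, (∑ j ∈ s, x j).coeff i = (∑ j ∈ s, y j).coeff i := by
  rw [← truncate_eq_iff, map_sum, map_sum]
  exact Finset.sum_congr rfl fun j hj => (truncate_eq_iff p n _ _).2 (h j hj)

end W5

/-- Module W4 : telescoping. -/
theorem frobenius_iterate_sub (p : ℕ) [Fact p.Prime] {B : Type*} [CommRing B] [CharP B p]
    (y : WittVector p B) (N : ℕ) :
    (frobenius^[N]) y - y = ∑ i ∈ Finset.range N, (frobenius^[i]) (frobenius y - y) := by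
  have h : ∀ i, (frobenius^[i]) (frobenius y - y) = (frobenius^[i+1]) y - (frobenius^[i]) y := by
    intro i
    rw [iterate_map_sub, Function.iterate_succ_apply]
  simp_rw [h]
  rw [Finset.sum_range_sub (fun i => (frobenius^[i]) y)]
  simp

section Teich

variable {p : ℕ} [Fact p.Prime] {M : Type*} [CommRing M] [CharP M p]

omit [CharP M p] in
theorem eq_teichmuller_add_verschiebung (x : WittVector p M) :
    x = teichmuller p (x.coeff 0) + verschiebung (WittVector.mk p fun i => x.coeff (i + 1)) := by
  ext i
  rw [coeff_add_of_disjoint]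
  · cases i with
    | zero => simp
    | succ i => simp [verschiebung_coeff_succ]
  · intro i
    cases i with
    | zero => right; simp
    | succ i => left; exact teichmuller_coeff_pos p _ _ (Nat.succ_pos _)

theorem frobenius_teichmuller (c : M) :
    frobenius (teichmuller p c) = teichmuller p (c ^ p) := by
  ext i
  rw [coeff_frobenius_charP]
  cases i with
  | zero => rw [teichmuller_coeff_zero, teichmuller_coeff_zero]
  | succ i =>
    rw [teichmuller_coeff_pos p _ _ (Nat.succ_pos _), teichmuller_coeff_pos p _ _ (Nat.succ_pos _),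
      zero_pow (Fact.out : p.Prime).ne_zero]

theorem teichmuller_mul_coeff (c : M) (x : WittVector p M) (i : ℕ) :
    (teichmuller p c * x).coeff i = c ^ (p ^ i) * x.coeff i := by
  induction i generalizing c x with
  | zero => rw [mul_coeff_zero]; simp
  | succ i ih =>
    have hx := eq_teichmuller_add_verschiebung x
    set x' : WittVector p M := WittVector.mk p fun i => x.coeff (i + 1) with hx'
    have h1 : teichmuller p c * x =
        teichmuller p (c * x.coeff 0) + verschiebung (teichmuller p (c ^ p) * x') := by
      conv_lhs => rw [hx]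
      rw [mul_add, ← map_mul, mul_comm (teichmuller p c) (verschiebung _),
        ← verschiebung_mul_frobenius, frobenius_teichmuller, mul_comm x']
    have hd : ∀ j, (teichmuller p (c * x.coeff 0)).coeff j = 0 ∨
        (verschiebung (teichmuller p (c ^ p) * x')).coeff j = 0 := by
      intro j
      cases j with
      | zero => right; simp
      | succ j => left; exact teichmuller_coeff_pos p _ _ (Nat.succ_pos _)
    rw [h1, coeff_add_of_disjoint _ _ _ hd, teichmuller_coeff_pos p _ _ (Nat.succ_pos _),
      verschiebung_coeff_succ, ih, zero_add, ← pow_mul, ← pow_succ']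
    rfl

end Teich

/-- Module W3 (isobaric pole estimate). -/
theorem witt_sum_mem (p : ℕ) [Fact p.Prime] {M : Type*} [CommRing M] [CharP M p]
    (R : Subring M) (c : M) (n N : ℕ) {ι : Type*} (s : Finset ι) (x : ι → WittVector p M)
    (hx : ∀ j ∈ s, ∀ i < n, c ^ (p ^ i) * (x j).coeff i ^ (p ^ N) ∈ R) :
    ∀ i < n, c ^ (p ^ i) * (∑ j ∈ s, x j).coeff i ^ (p ^ N) ∈ R := by
  classical
  intro i hi
  have key : ∀ z : WittVector p M, ∀ i, (teichmuller p c * (frobenius^[N]) z).coeff i =
      c ^ (p ^ i) * z.coeff i ^ (p ^ N) := by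
    intro z i
    rw [teichmuller_mul_coeff, iterate_frobenius_coeff]
  let z : ι → WittVector p R := fun j => WittVector.mk p fun k =>
    if h : c ^ (p ^ k) * (x j).coeff k ^ (p ^ N) ∈ R then ⟨_, h⟩ else 0
  have hz : ∀ j ∈ s, ∀ k < n, (WittVector.map R.subtype (z j)).coeff k =
      (teichmuller p c * (frobenius^[N]) (x j)).coeff k := by
    intro j hj k hk
    rw [key, WittVector.map_coeff]
    simp only [z, WittVector.coeff_mk]
    rw [dif_pos (hx j hj k hk)]
    rfl
  have h1 := coeff_sum_congr p n s _ _ hz i hi
  rw [← map_sum, ← Finset.mul_sum, WittVector.map_coeff] at h1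
  have h2 : ∑ j ∈ s, (frobenius^[N]) (x j) = (frobenius^[N]) (∑ j ∈ s, x j) := by
    clear h1 hz hx
    induction s using Finset.induction_on with
    | empty => rw [Finset.sum_empty, Finset.sum_empty, iterate_map_zero]
    | insert a t ha ih =>
      rw [Finset.sum_insert ha, Finset.sum_insert ha, iterate_map_add, ih]
  rw [h2, key] at h1
  rw [← h1]
  exact Subtype.mem _

section W2

theorem coeff_zero_natCast (p : ℕ) [Fact p.Prime] {B : Type*} [CommRing B] (m : ℕ) :
    ((m : WittVector p B)).coeff 0 = (m : B) := by
  exact map_natCast (constantCoeff (p := p) (R := B)) m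

theorem truncate_pow_self (p : ℕ) [Fact p.Prime] (n : ℕ) {B : Type*} [CommRing B] [CharP B p] :
    (((p ^ n : ℕ)) : TruncatedWittVector p n B) = 0 := by
  have h : truncate n (((p ^ n : ℕ)) : WittVector p B) = truncate n (0 : WittVector p B) := by
    rw [truncate_eq_iff]
    intro i hi
    have h1 := coeff_p_pow_eq_zero (p := p) (R := B) (i := n) (j := i) (by omega)
    rw [Nat.cast_pow, zero_coeff]
    exact h1
  rwa [map_natCast, map_zero] at h

theorem natCast_truncated_eq_of_modEq (p : ℕ) [Fact p.Prime] (n : ℕ) {B : Type*} [CommRing B]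
    [CharP B p] {a b : ℕ} (h : a ≡ b [MOD p ^ n]) :
    (a : TruncatedWittVector p n B) = (b : TruncatedWittVector p n B) := by
  wlog hab : a ≤ b generalizing a b
  · exact (this h.symm (by omega)).symm
  obtain ⟨k, hk⟩ := (Nat.modEq_iff_dvd' hab).1 h
  have : b = a + p ^ n * k := by omega
  rw [this, Nat.cast_add, Nat.cast_mul, truncate_pow_self, zero_mul, add_zero]

/-- Module W2 : `ℤ/p^n → W_n(B)` is injective for nontrivial `B` of characteristic `p`. -/
theorem natCast_truncated_eq_iff (p : ℕ) [Fact p.Prime] (n : ℕ) {B : Type*} [CommRing B]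
    [Nontrivial B] [CharP B p] (a b : ℕ) :
    ((a : TruncatedWittVector p n B) = (b : TruncatedWittVector p n B)) ↔ a ≡ b [MOD p ^ n] := by
  refine ⟨?_, natCast_truncated_eq_of_modEq p n⟩
  intro h
  wlog hab : a ≤ b generalizing a b
  · exact (this b a h.symm (by omega)).symm
  obtain ⟨d, rfl⟩ := Nat.exists_eq_add_of_le hab
  have hd : (d : TruncatedWittVector p n B) = 0 := by
    rw [Nat.cast_add] at h
    exact (left_eq_add.mp h)
  have hdvd : p ^ n ∣ d := by
    by_contra hnd
    have hd0 : d ≠ 0 := by rintro rfl; simp at hnd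
    obtain ⟨k, m, hm, rfl⟩ := Nat.exists_eq_pow_mul_and_not_dvd hd0 p
      (Fact.out : p.Prime).ne_one
    have hkn : k < n := by
      by_contra hkn
      exact hnd (Dvd.dvd.mul_right (pow_dvd_pow p (by omega)) _)
    have h1 : truncate n (((p ^ k * m : ℕ)) : WittVector p B) = truncate n (0 : WittVector p B) := by
      rw [map_natCast, map_zero]; exact hd
    rw [truncate_eq_iff] at h1
    have h2 := h1 k hkn
    have h3 : (((p ^ k * m : ℕ)) : WittVector p B).coeff (0 + k) = (m : B) ^ (p ^ k) := by
      rw [Nat.cast_mul, Nat.cast_pow, mul_comm, mul_pow_charP_coeff_succ, coeff_zero_natCast]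
    rw [zero_add] at h3
    rw [h3, zero_coeff] at h2
    have h4 : IsUnit (m : B) := by
      rw [CharP.isUnit_natCast_iff (Fact.out : p.Prime)]
      exact hm
    exact (h4.pow _).ne_zero h2
  rw [Nat.modEq_iff_dvd' (by omega)]
  simpa using hdvd

end W2

section W1

variable (p : ℕ) [Fact p.Prime] {B : Type*} [CommRing B] [CharP B p]

theorem exists_verschiebung_pow (v : WittVector p B) (hv : v.coeff 0 = 0) (n : ℕ) :
    ∃ z, v ^ n = (verschiebung^[n]) z := by
  have h0 : ∃ u, v = verschiebung u := by
    refine ⟨WittVector.mk p fun i => v.coeff (i + 1), ?_⟩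
    have := eq_teichmuller_add_verschiebung v
    rw [hv, teichmuller_zero, zero_add] at this
    exact this
  obtain ⟨u, hu⟩ := h0
  induction n with
  | zero => exact ⟨1, by simp⟩
  | succ n ih =>
    obtain ⟨z, hz⟩ := ih
    refine ⟨(frobenius^[1]) z * (frobenius^[n]) u, ?_⟩
    rw [pow_succ, hz, ← iterate_verschiebung_mul, Function.iterate_one, hu]

theorem coeff_pow_eq_zero (v : WittVector p B) (hv : v.coeff 0 = 0) (n : ℕ) :
    ∀ i < n, (v ^ n).coeff i = 0 := by
  obtain ⟨z, hz⟩ := exists_verschiebung_pow p v hv n
  intro i hi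
  rw [hz, iterate_verschiebung_coeff_eq_zero z hi]

variable {G : Type*} [Group G] [Fintype G] [MulSemiringAction G B]

/-- the action of `G` on Witt vectors -/
noncomputable def act (g : G) : WittVector p B →+* WittVector p B :=
  WittVector.map (MulSemiringAction.toRingHom G B g)

omit [CharP B p] [Fintype G] in
theorem act_coeff (g : G) (x : WittVector p B) (i : ℕ) : (act p g x).coeff i = g • x.coeff i := rfl

omit [CharP B p] [Fintype G] in
theorem act_act (g h : G) (x : WittVector p B) : act p g (act p h x) = act p (g * h) x := by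
  ext i
  simp only [act_coeff, mul_smul]

omit [CharP B p] in
theorem act_sum (h : G) (x : WittVector p B) :
    act p h (∑ g : G, act p g x) = ∑ g : G, act p g x := by
  rw [map_sum]
  simp_rw [act_act]
  exact Fintype.sum_equiv (Equiv.mulLeft h) _ _ fun g => rfl

theorem exists_trace_one (n : ℕ) (b : B) (hb : ∑ g : G, g • b = 1) :
    ∃ w : WittVector p B, truncate n (∑ g : G, act p g w) = 1 := by
  set t : WittVector p B := ∑ g : G, act p g (teichmuller p b) with ht
  have ht0 : t.coeff 0 = 1 := by
    have : constantCoeff t = ∑ g : G, g • b := by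
      rw [ht, map_sum]
      refine Finset.sum_congr rfl fun g _ => ?_
      change (act p g (teichmuller p b)).coeff 0 = _
      rw [act_coeff, teichmuller_coeff_zero]
    rw [← hb, ← this]; rfl
  have hinv : ∀ g : G, act p g t = t := fun g => act_sum p g _
  set v := 1 - t with hv
  have hv0 : v.coeff 0 = 0 := by
    have : constantCoeff v = (1 : B) - constantCoeff t := by rw [hv, map_sub, map_one]
    have h2 : constantCoeff t = (1 : B) := ht0
    rw [h2, sub_self] at this
    exact this
  set s := ∑ k ∈ Finset.range n, v ^ k with hs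
  have hsinv : ∀ g : G, act p g s = s := by
    intro g
    rw [hs, map_sum]
    refine Finset.sum_congr rfl fun k _ => ?_
    rw [map_pow, hv, map_sub, map_one, hinv]
  refine ⟨s * teichmuller p b, ?_⟩
  have h1 : ∑ g : G, act p g (s * teichmuller p b) = s * t := by
    simp_rw [map_mul, hsinv]
    rw [← Finset.mul_sum]
  have h2 : s * t = 1 - v ^ n := by
    have : t = 1 - v := by rw [hv]; ring
    rw [this, hs, geom_sum_mul_neg]
  rw [h1, h2, map_sub, map_one]
  have h3 : truncate n (v ^ n) = truncate n (0 : WittVector p B) := by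
    rw [truncate_eq_iff]
    intro i hi
    rw [coeff_pow_eq_zero p v hv0 n i hi, zero_coeff]
  rw [h3, map_zero, sub_zero]

end W1

/-- Module W1 (additive Hilbert 90 for truncated Witt vectors). -/
theorem exists_witt (p : ℕ) [Fact p.Prime] (n : ℕ) {G : Type*} [Group G] [Fintype G]
    (e : G ≃* Multiplicative (ZMod (p ^ n))) {B : Type*} [CommRing B] [CharP B p]
    [MulSemiringAction G B] (b : B) (hb : ∑ g : G, g • b = 1) :
    ∃ y : WittVector p B, ∀ g : G,
      truncate n (WittVector.map (MulSemiringAction.toRingHom G B g) y) =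
        truncate n y + (((Multiplicative.toAdd (e g)).val : ℕ) : TruncatedWittVector p n B) := by
  obtain ⟨w, hw⟩ := exists_trace_one p (G := G) n b hb
  have hval : ∀ g h : G, (((Multiplicative.toAdd (e g)).val : ℕ) : TruncatedWittVector p n B) =
      (((Multiplicative.toAdd (e (h⁻¹ * g))).val : ℕ) : TruncatedWittVector p n B) +
      (((Multiplicative.toAdd (e h)).val : ℕ) : TruncatedWittVector p n B) := by
    intro g h
    rw [← Nat.cast_add]
    apply natCast_truncated_eq_of_modEq
    rw [← ZMod.natCast_eq_natCast_iff]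
    have : NeZero (p ^ n) := ⟨pow_ne_zero _ (Fact.out : p.Prime).ne_zero⟩
    rw [Nat.cast_add, ZMod.natCast_zmod_val, ZMod.natCast_zmod_val, ZMod.natCast_zmod_val]
    rw [map_mul, map_inv, toAdd_mul, toAdd_inv]
    ring
  refine ⟨∑ g : G, -(((Multiplicative.toAdd (e g)).val : ℕ) : WittVector p B) * act p g w, ?_⟩
  intro h
  have h1 : WittVector.map (MulSemiringAction.toRingHom G B h)
      (∑ g : G, -(((Multiplicative.toAdd (e g)).val : ℕ) : WittVector p B) * act p g w) =
      ∑ g : G, -(((Multiplicative.toAdd (e (h⁻¹ * g))).val : ℕ) : WittVector p B) * act p g w := by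
    rw [map_sum]
    refine Fintype.sum_equiv (Equiv.mulLeft h) _ _ fun g => ?_
    rw [map_mul, map_neg, map_natCast]
    change _ * act p h (act p g w) = _
    rw [act_act]
    simp
  rw [h1, map_sum, map_sum]
  have h2 : (((Multiplicative.toAdd (e h)).val : ℕ) : TruncatedWittVector p n B) =
      ∑ g : G, (((Multiplicative.toAdd (e h)).val : ℕ) : TruncatedWittVector p n B) *
        truncate n (act p g w) := by
    rw [← Finset.mul_sum, ← map_sum, hw, mul_one]
  rw [h2, ← Finset.sum_add_distrib]
  refine Finset.sum_congr rfl fun g _ => ?_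
  have h3 : truncate n (-(((Multiplicative.toAdd (e g)).val : ℕ) : WittVector p B) * act p g w) =
      -(((Multiplicative.toAdd (e g)).val : ℕ) : TruncatedWittVector p n B) *
        truncate n (act p g w) := by
    rw [map_mul, map_neg, map_natCast]
  have h4 : truncate n (-(((Multiplicative.toAdd (e (h⁻¹ * g))).val : ℕ) : WittVector p B) *
      act p g w) = -(((Multiplicative.toAdd (e (h⁻¹ * g))).val : ℕ) : TruncatedWittVector p n B) *
        truncate n (act p g w) := by
    rw [map_mul, map_neg, map_natCast]
  rw [h3, h4, hval g h]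
  ring

end Pool.Agent.Helper13.Wan
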